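import Pool.Agent.PFE.StmtsE2

/-!
# Squad PFE, block E2, row NXO: twisted elements lift
-/

set_option autoImplicit false

open scoped BigOperators

noncomputable section

namespace Pool.Agent.PFE.H1

open MulOpposite
open Pool.Agent.PFC.B1 (FS Split BiM Sep)
open Pool.Agent.PFC (tw)
open Pool.Agent.PFD (RF)
open Pool.Agent.PFD.D2
open Pool.Agent.PFD.D2b (wrp FPl FrR)

theorem nxo_smul {R F A1 A : Type} [CommRing R] [Field F] {c : Cdv R F} [Ring A1] [Algebra R A1]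
    [Ring A] [Algebra F A] (fb : FibG A1 A c) (r : R) (a : A1) :
    fb.q (r • a) = c.κ r • fb.q a := by
  rw [Algebra.smul_def, map_mul, fb.sc, ← Algebra.smul_def]

/-- NXO -/
theorem nxo (kex : KexStmt) : NxoStmt := by
  intro R F Γ Γ0 W A A1 X Ω Ω' _ _ c _ _ _ _ _ _ _ _ _ _ _ _ _ _ _ l G f χ χ0 j0 pr0 ly hl hχ hχl
    hχu x a0 ha0
  obtain ⟨a1, ha1⟩ := ly.fb.surj a0
  obtain ⟨κ, -, h2, h3⟩ := kex R Γ W A1 X Ω Ω' l G χ (AB ly.j) ly.fr hl hχl hχu x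
  have h4 : ly.fb.q (ly.j G.y * a1 - χ x • (a1 * ly.j G.y)) = 0 := by
    have h5 : ly.fb.q (ly.j G.y) * a0 = χ0 x • (a0 * ly.fb.q (ly.j G.y)) := ha0
    rw [map_sub, nxo_smul, map_mul, map_mul, ha1, hχ, h5, sub_self]
  obtain ⟨m, hm⟩ := ly.fb.ker _ h4
  obtain ⟨m', hm'⟩ := h3 c.π a1 ⟨m, hm⟩
  refine ⟨κ a1, h2 a1, ?_⟩
  have h6 : ly.fb.q (κ a1 - a1) = 0 := by
    have h7 : c.κ c.π = 0 := (c.ker _).2 ⟨1, (mul_one _).symm⟩
    rw [hm', nxo_smul, h7, zero_smul]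
  rw [map_sub, sub_eq_zero] at h6
  rw [h6, ha1]

end Pool.Agent.PFE.H1
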