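import Pool.Agent.PFE.StmtsE1

/-!
# Squad PFE, part E1, row TPE: the assembly
-/

set_option autoImplicit false

open scoped BigOperators

noncomputable section

namespace Pool.Agent.PFE.H1

open Pool.Agent.PFC.B1 (FS Split)
open Pool.Agent.PFD (RF FotStmt)

/-- the embedding of the corner and the traces -/
theorem tpe_tx {K A A' : Type} [Field K] [Ring A] [Algebra K A] [Ring A'] [Algebra K A']
    (κ : A' →ₗ[K] A) (f y : A) (y' : A') (l : ℕ) (hff : f * f = f) (hyf : y * f = f * y)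
    (hκm : ∀ a b, κ (a * b) = κ a * κ b) (hκ1 : κ 1 = f) (hκy : κ y' = y * f) (a : A') :
    κ (Tx y' l (1 : K) a) = f * Tx y l (1 : K) (κ a) * f := by
  have hc : ∀ k, y ^ k * f = f * y ^ k := by
    intro k
    induction k with
    | zero => rw [pow_zero, one_mul, mul_one]
    | succ k ih => rw [pow_succ, mul_assoc, hyf, ← mul_assoc, ih, mul_assoc]
  have hp : ∀ k, κ (y' ^ k) = y ^ k * f := by
    intro k
    induction k with
    | zero => rw [pow_zero, hκ1, pow_zero, one_mul]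
    | succ k ih =>
      rw [pow_succ, hκm, ih, hκy, pow_succ, hyf, mul_assoc (y ^ k) f, ← mul_assoc f f y, hff,
        mul_assoc (y ^ k) y f, hyf]
  have h1 : f * κ a = κ a := by
    rw [← hκ1, ← hκm, one_mul]
  have h2 : κ a * f = κ a := by
    rw [← hκ1, ← hκm, mul_one]
  unfold Tx
  rw [map_sum, Finset.mul_sum, Finset.sum_mul]
  refine Finset.sum_congr rfl fun j _ => ?_
  rw [map_smul, hκm, hκm, hp, hp, mul_smul_comm, smul_mul_assoc]
  congr 1
  calc y ^ j * f * κ a * (y ^ (l - 1 - j) * f)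
      = y ^ j * f * κ a * y ^ (l - 1 - j) * f := by rw [mul_assoc (y ^ j * f * κ a)]
    _ = f * (y ^ j * κ a * y ^ (l - 1 - j)) * f := by
        rw [hc j]
        simp only [mul_assoc]

/-- the traces of the corner -/
theorem tpe_prod {K A A' : Type} [Field K] [Ring A] [Algebra K A] [Ring A'] [Algebra K A']
    (κ : A' →ₗ[K] A) (f : A) (hκm : ∀ a b, κ (a * b) = κ a * κ b) (hκ1 : κ 1 = f)
    (g : ℕ → A') (M : ℕ) :
    κ ((List.range M).map g).prod = f * ((List.range M).map fun i => κ (g i)).prod := by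
  induction M with
  | zero => simp [hκ1]
  | succ M ih =>
    rw [List.range_succ, List.map_append, List.prod_append, List.map_append, List.prod_append,
      hκm, ih]
    simp [mul_assoc]

/-- TPE: the top of E1 -/
theorem tpe (idf : IdfStmt) (crn : CrnStmt) (czf : CzfStmt) (nil : NilStmt) (sfe : SfeStmt)
    (rho : RhoStmt) (cce : CceStmt) (cfu : CfuStmt) (kmx : KmxStmt) (kkl : KklStmt)
    (zcb : ZcbStmt) (zcs : ZcsStmt) : TpeStmt := by
  intro K A X S J Ω Ω' _ _ _ _ _ _ _ _ _ _ _ _ _ y l χ D L hX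
  have hl : 1 ≤ l := le_trans (by norm_num) D.hl
  obtain ⟨f, hff, hyf, hfa, M, hM⟩ := idf K A y l hl D.yl
  obtain ⟨A', rA', aA', fA', κ, y', D', L', hκi, hκm, hκ1, hκs, hκy, hG⟩ :=
    crn K A X S J Ω Ω' y l χ D L f hff hyf hfa
  have hz := czf K A X J Ω Ω' A' y l χ D f κ hff hyf hfa hκi hκm hκ1 hκs
  have hN : ∃ M : ℕ, ∀ a : ℕ → A', ((List.range M).map fun i => Tx y' l (1 : K) (a i)).prod = 0 := by
    refine ⟨M, fun a => hκi ?_⟩
    rw [tpe_prod κ f hκm hκ1, map_zero]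
    have h1 : (fun i => κ (Tx y' l (1 : K) (a i))) =
        fun i => f * Tx y l (1 : K) (κ (a i)) * f := by
      funext i
      exact tpe_tx κ f y y' l hff hyf hκm hκ1 hκy (a i)
    rw [h1, hM, mul_zero]
  obtain ⟨M', hJP⟩ := nil K A' X y' l χ hl D'.yl D'.χl hN
  obtain ⟨F⟩ := sfe K A' X S J Ω Ω' y' l χ D' L'
  obtain ⟨ρ⟩ := rho K A' X S J Ω Ω' y' l χ D' L' F ⟨M', hJP⟩
  obtain ⟨C, rC, aC, fC, Q, j, hji, hjy, hjs⟩ := cce K A' X S J Ω Ω' y' l χ D' L' F ρ
  obtain ⟨E, -⟩ := cfu K A' X S J Ω Ω' C y' l χ D' L' F ρ Q j hji hjy hjs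
  obtain ⟨km⟩ := kmx K A' X S J Ω Ω' C y' l χ D' L' F E
  have h1 := kkl K C A' (Ω × Fin l) J (Ω ⊕ (Ω' × Fin l)) km
  obtain ⟨Z, hZ1, hZ2⟩ := zcb K S C X L'.toGS l χ Q D'.hl D'.χl D'.χu
  have hX' : ∀ x, ∃ g g' : S, L'.toGS.c x g = g ∧ g * g' = 1 ∧ g' * g = 1 := by
    rw [hG]
    exact hX
  have h2 := zcs K S X L'.toGS l χ D'.hl D'.χl D'.χu hX' Z hZ1
  rw [hz, h1, hZ2, h2, hG]

end Pool.Agent.PFE.H1
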